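import Mathlib

/-!
# Arithmetic behind the diophantine definitions of the binomial coefficient, of the
factorial and of the product of an arithmetic progression (Davis 1973).
-/

namespace Helper14.H10

open Nat Finset

/-- The low part of the binomial expansion of `(u + 1) ^ n` is less than `u ^ k`. -/
theorem low_lt (n k u : ℕ) (hu : 2 ^ n < u) :
    ∑ i ∈ range k, n.choose i * u ^ i < u ^ k := by
  have hu0 : 0 < u := lt_of_le_of_lt (Nat.zero_le _) hu
  rcases Nat.eq_zero_or_pos k with rfl | hk
  · simp
  · have h1 : ∑ i ∈ range k, n.choose i * u ^ i ≤ ∑ i ∈ range k, n.choose i * u ^ (k - 1) := by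
      apply Finset.sum_le_sum
      intro i hi
      have hi' : i < k := Finset.mem_range.mp hi
      exact Nat.mul_le_mul_left _ (Nat.pow_le_pow_right hu0 (by omega))
    have h2 : ∑ i ∈ range k, n.choose i ≤ 2 ^ n := by
      rw [← Nat.sum_range_choose n]
      rcases le_total k (n + 1) with h | h
      · exact Finset.sum_le_sum_of_subset (Finset.range_mono h)
      · have : ∑ i ∈ range k, n.choose i = ∑ i ∈ range (n + 1), n.choose i := by
          symm
          apply Finset.sum_subset (Finset.range_mono h)
          intro i _ hi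
          have : n < i := by
            simp only [Finset.mem_range, not_lt] at hi
            omega
          exact Nat.choose_eq_zero_of_lt this
        exact this.le
    have h3 : ∑ i ∈ range k, n.choose i * u ^ (k - 1) ≤ 2 ^ n * u ^ (k - 1) := by
      rw [← Finset.sum_mul]
      exact Nat.mul_le_mul_right _ h2
    have h4 : 2 ^ n * u ^ (k - 1) < u * u ^ (k - 1) :=
      Nat.mul_lt_mul_of_pos_right hu (Nat.pow_pos hu0)
    have h5 : u * u ^ (k - 1) = u ^ k := by
      rw [← pow_succ']
      congr 1
      omega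
    omega

/-- The binomial coefficient is a digit of `(u + 1) ^ n` in base `u`. -/
theorem choose_digit (n k u : ℕ) (hu : 2 ^ n < u) :
    (u + 1) ^ n / u ^ k % u = n.choose k := by
  have hu0 : 0 < u := lt_of_le_of_lt (Nat.zero_le _) hu
  have hexp : (u + 1) ^ n = ∑ i ∈ range (k + (n + 1)), n.choose i * u ^ i := by
    rw [add_pow]
    have : ∑ m ∈ range (n + 1), u ^ m * 1 ^ (n - m) * (n.choose m) =
        ∑ i ∈ range (n + 1), n.choose i * u ^ i := by
      apply Finset.sum_congr rfl
      intro i _
      rw [one_pow, mul_one, mul_comm]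
    simp only [Nat.cast_id]
    rw [this]
    apply Finset.sum_subset (Finset.range_mono (by omega))
    intro i _ hi
    have : n < i := by
      simp only [Finset.mem_range, not_lt] at hi
      omega
    rw [Nat.choose_eq_zero_of_lt this, zero_mul]
  have hsplit : ∑ i ∈ range (k + (n + 1)), n.choose i * u ^ i =
      ∑ i ∈ range k, n.choose i * u ^ i +
        u ^ k * (n.choose k + u * ∑ i ∈ range n, n.choose (k + (i + 1)) * u ^ i) := by
    rw [Finset.sum_range_add, Finset.sum_range_succ', Finset.mul_sum]
    have : ∑ x ∈ range n, n.choose (k + (x + 1)) * u ^ (k + (x + 1)) =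
        u ^ k * ∑ i ∈ range n, u * (n.choose (k + (i + 1)) * u ^ i) := by
      rw [Finset.mul_sum]
      apply Finset.sum_congr rfl
      intro i _
      rw [pow_add, pow_succ]
      ring
    rw [this, add_zero, mul_add, mul_comm (n.choose k) (u ^ k),
      add_comm (u ^ k * n.choose k)]
  rw [hexp, hsplit, Nat.add_mul_div_left _ _ (Nat.pow_pos hu0),
    Nat.div_eq_of_lt (low_lt n k u hu), zero_add, Nat.add_mul_mod_self_left]
  apply Nat.mod_eq_of_lt
  exact lt_of_le_of_lt (Nat.choose_le_two_pow n k) hu

/-- The factorial as a quotient. -/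
theorem factorial_quot (n r : ℕ) (hr : (n ! + 1) * (n * n) < r) :
    r ^ n / r.choose n = n ! := by
  have hnr : n ≤ r := by
    have : n ≤ (n ! + 1) * (n * n) := by
      rcases Nat.eq_zero_or_pos n with rfl | hn
      · simp
      · have : n * 1 ≤ n * n := Nat.mul_le_mul_left _ hn
        nlinarith [Nat.zero_le (n ! * (n * n))]
    omega
  have hr0 : 0 < r := by omega
  have hch : 0 < r.choose n := Nat.choose_pos hnr
  have hd : r.descFactorial n = n ! * r.choose n := Nat.descFactorial_eq_factorial_mul_choose r n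
  have hle : r.descFactorial n ≤ r ^ n := Nat.descFactorial_le_pow r n
  have hge : (r - n) ^ n ≤ r.descFactorial n :=
    le_trans (Nat.pow_le_pow_left (by omega) n) (Nat.pow_sub_le_descFactorial r n)
  -- Bernoulli
  have hb : (r : ℝ) ^ n * (1 - n * n / r) ≤ ((r - n : ℕ) : ℝ) ^ n := by
    have hrR : (0 : ℝ) < r := by exact_mod_cast hr0
    have hcast : ((r - n : ℕ) : ℝ) = r * (1 + -(n / r)) := by
      rw [Nat.cast_sub hnr]
      field_simp
      ring
    have hn1 : (n : ℝ) / r ≤ 1 := by
      rw [div_le_one hrR]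
      exact_mod_cast hnr
    have h := one_add_mul_le_pow (a := -((n : ℝ) / r)) (by linarith) n
    rw [hcast, mul_pow]
    apply mul_le_mul_of_nonneg_left _ (by positivity)
    calc (1 : ℝ) - n * n / r = 1 + n * -(n / r) := by ring
      _ ≤ _ := h
  have hlt : r ^ n < (n ! + 1) * r.choose n := by
    have hfac : (0 : ℝ) < (n ! : ℝ) := by exact_mod_cast Nat.factorial_pos n
    have hrR : (0 : ℝ) < r := by exact_mod_cast hr0
    have h1 : ((n ! : ℝ) + 1) * (n * n) < r := by exact_mod_cast hr
    have h2 : (r : ℝ) ^ n * (1 - n * n / r) ≤ (n ! : ℝ) * r.choose n := by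
      refine hb.trans ?_
      have : (((r - n) ^ n : ℕ) : ℝ) ≤ ((n ! * r.choose n : ℕ) : ℝ) := by
        rw [← hd]
        exact_mod_cast hge
      push_cast at this
      exact this
    have hP : (0 : ℝ) < (r : ℝ) ^ n := by positivity
    have h3 : (n ! : ℝ) < (n ! + 1) * (1 - n * n / r) := by
      have : ((n ! : ℝ) + 1) * (n * n / r) < 1 := by
        rw [← mul_div_assoc, div_lt_one hrR]
        exact h1
      nlinarith
    have h4 : (n ! : ℝ) * (r : ℝ) ^ n < (n ! : ℝ) * ((n ! + 1) * r.choose n) := by
      calc (n ! : ℝ) * (r : ℝ) ^ n < ((n ! + 1) * (1 - n * n / r)) * (r : ℝ) ^ n :=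
            mul_lt_mul_of_pos_right h3 hP
        _ = (n ! + 1) * ((r : ℝ) ^ n * (1 - n * n / r)) := by ring
        _ ≤ (n ! + 1) * ((n ! : ℝ) * r.choose n) := by
            apply mul_le_mul_of_nonneg_left h2 (by positivity)
        _ = _ := by ring
    have h5 := lt_of_mul_lt_mul_left h4 hfac.le
    exact_mod_cast h5
  apply Nat.div_eq_of_lt_le
  · rw [← hd]; exact hle
  · exact hlt

/-- An explicit admissible `r`. -/
theorem factorial_bd (n : ℕ) : (n ! + 1) * (n * n) < 2 * (n + 1) ^ (n + 2) := by
  have h1 : n ! ≤ (n + 1) ^ n := by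
    refine (Nat.factorial_le_pow n).trans ?_
    exact Nat.pow_le_pow_left (by omega) n
  have h2 : 1 ≤ (n + 1) ^ n := Nat.one_le_pow _ _ (by omega)
  have h3 : (n + 1) ^ (n + 2) = (n + 1) ^ n * ((n + 1) * (n + 1)) := by
    rw [pow_add]; ring
  rw [h3]
  have h4 : (n ! + 1) * (n * n) ≤ (2 * (n + 1) ^ n) * (n * n) :=
    Nat.mul_le_mul_right _ (by omega)
  have h5 : (2 * (n + 1) ^ n) * (n * n) < (2 * (n + 1) ^ n) * ((n + 1) * (n + 1)) := by
    apply Nat.mul_lt_mul_of_pos_left
    · nlinarith
    · positivity
  calc _ ≤ _ := h4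
    _ < _ := h5
    _ = _ := by ring

/-- The product of an arithmetic progression modulo `M`, if `b q ≡ a`. -/
theorem prod_modEq (a b y q M : ℕ) (h : b * q ≡ a [MOD M]) :
    ∏ k ∈ range y, (a + b * (k + 1)) ≡ b ^ y * (y ! * (q + y).choose y) [MOD M] := by
  have h1 : b ^ y * (y ! * (q + y).choose y) = ∏ k ∈ range y, (b * q + b * (k + 1)) := by
    rw [← Nat.ascFactorial_eq_factorial_mul_choose, Nat.ascFactorial_eq_prod_range]
    rw [← Finset.card_range y, ← Finset.prod_const, Finset.card_range, ← Finset.prod_mul_distrib]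
    apply Finset.prod_congr rfl
    intro i _
    ring
  rw [h1]
  apply Nat.ModEq.symm
  induction y with
  | zero => exact Nat.ModEq.refl _
  | succ y ih =>
    rw [Finset.prod_range_succ, Finset.prod_range_succ]
    refine Nat.ModEq.mul (ih ?_) (Nat.ModEq.add_right _ h)
    rw [← Nat.ascFactorial_eq_factorial_mul_choose, Nat.ascFactorial_eq_prod_range]
    rw [← Finset.card_range y, ← Finset.prod_const, Finset.card_range, ← Finset.prod_mul_distrib]
    apply Finset.prod_congr rfl
    intro i _
    ring

/-- The product of an arithmetic progression with positive difference is bounded. -/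
theorem prod_lt (a b y : ℕ) (hb : 0 < b) :
    ∏ k ∈ range y, (a + b * (k + 1)) < b * (a + b * y) ^ y + 1 := by
  have h1 : ∏ k ∈ range y, (a + b * (k + 1)) ≤ ∏ _k ∈ range y, (a + b * y) := by
    apply Finset.prod_le_prod'
    intro i hi
    have : i + 1 ≤ y := Finset.mem_range.mp hi
    have := Nat.mul_le_mul_left b this
    omega
  rw [Finset.prod_const, Finset.card_range] at h1
  have h2 : (a + b * y) ^ y ≤ b * (a + b * y) ^ y := Nat.le_mul_of_pos_left _ hb
  omega

/-- Characterisation of the product. -/
theorem prod_iff (a b y z : ℕ) (hb : 0 < b) :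
    z = ∏ k ∈ range y, (a + b * (k + 1)) ↔
      ∃ q, b * q ≡ a [MOD b * (a + b * y) ^ y + 1] ∧ z < b * (a + b * y) ^ y + 1 ∧
        z ≡ b ^ y * (y ! * (q + y).choose y) [MOD b * (a + b * y) ^ y + 1] := by
  constructor
  · rintro rfl
    set M := b * (a + b * y) ^ y + 1 with hM
    have hcop : Nat.Coprime b M := by
      rw [hM]
      simp
    obtain ⟨c, hc⟩ : ∃ c, b * c ≡ 1 [MOD M] := by
      have hM1 : 1 < M := by
        rcases Nat.eq_zero_or_pos (a + b * y) with h0 | h0
        · have hy : y = 0 := by
            have : b * y = 0 := by omega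
            rcases Nat.mul_eq_zero.mp this with h | h
            · omega
            · exact h
          rw [hM, hy]
          simp [hb]
        · have : 0 < b * (a + b * y) ^ y := Nat.mul_pos hb (Nat.pow_pos h0)
          omega
      obtain ⟨m, _, hm⟩ := Nat.exists_mul_mod_eq_one_of_coprime hcop hM1
      exact ⟨m, by rw [Nat.ModEq, hm, Nat.mod_eq_of_lt hM1]⟩
    have hq : b * (c * a) ≡ a [MOD M] := by
      have := Nat.ModEq.mul_right a hc
      rw [one_mul, mul_assoc] at this
      exact this
    exact ⟨c * a, hq, prod_lt a b y hb, prod_modEq a b y _ _ hq⟩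
  · rintro ⟨q, hq, hz, hzz⟩
    have h1 := prod_modEq a b y q _ hq
    have h2 := prod_lt a b y hb
    exact Nat.ModEq.eq_of_lt_of_lt (hzz.trans h1.symm) hz h2

end Helper14.H10
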