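import Mathlib
import Pool.Agent.Helper14.H10.Ar

/-!
# The binomial coefficient, the factorial and products of arithmetic progressions are
Diophantine functions.
-/

namespace Helper14.H10

open Nat Finset Dioph Vector3

open scoped Vector3

variable {α : Type}

theorem choose_dioph {f g : (α → ℕ) → ℕ} (df : DiophFn f) (dg : DiophFn g) :
    DiophFn fun v => (f v).choose (g v) := by
  have hu : DiophFn fun v : α → ℕ => 2 ^ (f v) + 1 :=
    add_dioph (pow_dioph (const_dioph 2) df) (const_dioph 1)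
  have h := mod_dioph (div_dioph (pow_dioph (add_dioph hu (const_dioph 1)) df)
    (pow_dioph hu dg)) hu
  have e : (fun v : α → ℕ => (f v).choose (g v)) = fun v =>
      (2 ^ (f v) + 1 + 1) ^ (f v) / (2 ^ (f v) + 1) ^ (g v) % (2 ^ (f v) + 1) := by
    funext v
    exact (choose_digit (f v) (g v) (2 ^ (f v) + 1) (by omega)).symm
  rw [e]
  exact h

theorem factorial_dioph {f : (α → ℕ) → ℕ} (df : DiophFn f) :
    DiophFn fun v => (f v)! := by
  have hr : DiophFn fun v : α → ℕ => 2 * (f v + 1) ^ (f v + 2) :=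
    mul_dioph (const_dioph 2) (pow_dioph (add_dioph df (const_dioph 1))
      (add_dioph df (const_dioph 2)))
  have h := div_dioph (pow_dioph hr df) (choose_dioph hr df)
  have e : (fun v : α → ℕ => (f v)!) = fun v =>
      (2 * (f v + 1) ^ (f v + 2)) ^ (f v) / (2 * (f v + 1) ^ (f v + 2)).choose (f v) := by
    funext v
    exact (factorial_quot (f v) _ (factorial_bd (f v))).symm
  rw [e]
  exact h

/-- Products of arithmetic progressions (three variable form). -/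
theorem prodAP_vec : DiophFn fun v : Vector3 ℕ 3 =>
    ∏ k ∈ range (v (Fin2.ofNat' 2)), (v (Fin2.ofNat' 0) + v (Fin2.ofNat' 1) * (k + 1)) := by
  have hS : Dioph {v : Vector3 ℕ 4 | (v &2 = 0 ∧ v &0 = v &1 ^ v &3) ∨ (0 < v &2 ∧ ∃ q : ℕ,
      v &2 * q ≡ v &1 [MOD v &2 * (v &1 + v &2 * v &3) ^ v &3 + 1] ∧
      v &0 < v &2 * (v &1 + v &2 * v &3) ^ v &3 + 1 ∧
      v &0 ≡ v &2 ^ v &3 * ((v &3)! * (q + v &3).choose (v &3))
        [MOD v &2 * (v &1 + v &2 * v &3) ^ v &3 + 1])} := by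
    have hM : DiophFn fun v : Vector3 ℕ 5 => v &3 * (v &2 + v &3 * v &4) ^ v &4 + 1 :=
      D&3 D* (pow_dioph (D&2 D+ D&3 D* D&4) (D&4)) D+ D.1
    have h1 : Dioph {v : Vector3 ℕ 5 | v &3 * v &0 ≡ v &2
        [MOD v &3 * (v &2 + v &3 * v &4) ^ v &4 + 1]} := (D≡ (D&3 D* D&0) (D&2) hM)
    have h2 : Dioph {v : Vector3 ℕ 5 | v &1 < v &3 * (v &2 + v &3 * v &4) ^ v &4 + 1} :=
      D&1 D< hM
    have h3 : Dioph {v : Vector3 ℕ 5 | v &1 ≡ v &3 ^ v &4 * ((v &4)! *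
        (v &0 + v &4).choose (v &4)) [MOD v &3 * (v &2 + v &3 * v &4) ^ v &4 + 1]} :=
      (D≡ (D&1) (pow_dioph (D&3) (D&4) D* (factorial_dioph (D&4) D*
        choose_dioph (D&0 D+ D&4) (D&4))) hM)
    exact (D&2 D= D.0 D∧ D&0 D= pow_dioph (D&1) (D&3)) D∨ (D.0 D< D&2 D∧
      ((D∃) 4 <| h1 D∧ (h2 D∧ h3)))
  refine (diophFn_vec _).2 (Dioph.ext hS ?_)
  refine (vectorAll_iff_forall _).1 fun z a b y => ?_
  show ((b = 0 ∧ z = a ^ y) ∨ (0 < b ∧ ∃ q : ℕ,
      b * q ≡ a [MOD b * (a + b * y) ^ y + 1] ∧ z < b * (a + b * y) ^ y + 1 ∧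
      z ≡ b ^ y * (y ! * (q + y).choose y) [MOD b * (a + b * y) ^ y + 1])) ↔
      ∏ k ∈ range y, (a + b * (k + 1)) = z
  rcases Nat.eq_zero_or_pos b with rfl | hb
  · simp [eq_comm]
  · rw [eq_comm (b := z), prod_iff a b y z hb]
    constructor
    · rintro (⟨h, _⟩ | ⟨_, h⟩)
      · omega
      · exact h
    · intro h
      exact Or.inr ⟨hb, h⟩

theorem prodAP_dioph {f g h : (α → ℕ) → ℕ} (df : DiophFn f) (dg : DiophFn g)
    (dh : DiophFn h) :
    DiophFn fun v => ∏ k ∈ range (h v), (f v + g v * (k + 1)) :=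
  diophFn_comp prodAP_vec [f, g, h] ⟨df, dg, dh⟩

end Helper14.H10
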