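import Mathlib

/-!
# Saturated lattices and reduction modulo 2; ranks over the integers.
-/

namespace Helper14.H10

open Module

variable {ι : Type*}

/-- Reduction modulo 2. -/
def red (x : ι → ℤ) : ι → ZMod 2 := fun i => (x i : ZMod 2)

@[simp] theorem red_apply (x : ι → ℤ) (i : ι) : red x i = (x i : ZMod 2) := rfl

theorem red_zero : red (0 : ι → ℤ) = 0 := by
  funext i; simp [red]

theorem red_add (x y : ι → ℤ) : red (x + y) = red x + red y := by
  funext i; simp [red]

theorem red_smul (c : ℤ) (x : ι → ℤ) : red (c • x) = (c : ZMod 2) • red x := by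
  funext i; simp [red]

theorem red_sum {k : Type*} (s : Finset k) (f : k → ι → ℤ) :
    red (∑ i ∈ s, f i) = ∑ i ∈ s, red (f i) := by
  funext j; simp [red]

/-- A vector with zero reduction is twice a vector. -/
theorem exists_two_smul {x : ι → ℤ} (h : red x = 0) : ∃ y : ι → ℤ, x = (2 : ℤ) • y := by
  have h1 : ∀ i, (2 : ℤ) ∣ x i := by
    intro i
    have := congrFun h i
    exact (ZMod.intCast_zmod_eq_zero_iff_dvd (x i) 2).1 this
  choose y hy using h1
  exact ⟨y, funext fun i => by simpa using hy i⟩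

/-- Saturation at 2. -/
def Sat2 (S : Submodule ℤ (ι → ℤ)) : Prop := ∀ x, (2 : ℤ) • x ∈ S → x ∈ S

/-- A basis of a saturated lattice stays independent modulo 2. -/
theorem red_linearIndependent {S : Submodule ℤ (ι → ℤ)} (hS : Sat2 S) {k : Type*} [Fintype k]
    (b : Basis k ℤ S) : LinearIndependent (ZMod 2) fun i => red ((b i : S) : ι → ℤ) := by
  rw [Fintype.linearIndependent_iff]
  intro c hc i
  let z : k → ℤ := fun i => ((c i).val : ℤ)
  have hz : ∀ i, ((z i : ℤ) : ZMod 2) = c i := by
    intro i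
    simp [z]
  have h1 : red (∑ i, z i • ((b i : S) : ι → ℤ)) = 0 := by
    rw [red_sum, ← hc]
    apply Finset.sum_congr rfl
    intro i _
    rw [red_smul, hz]
  obtain ⟨y, hy⟩ := exists_two_smul h1
  have hmem : (2 : ℤ) • y ∈ S := by
    rw [← hy]
    exact Submodule.sum_mem _ fun i _ => Submodule.smul_mem _ _ (b i).2
  have hyS : y ∈ S := hS y hmem
  have h2 : ∑ i, z i • b i = (2 : ℤ) • (⟨y, hyS⟩ : S) := by
    apply Subtype.ext
    simpa using hy
  have h3 : z i = 2 * b.repr ⟨y, hyS⟩ i := by
    have h4 := congrArg (fun w => b.repr w i) h2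
    simp only [b.repr_sum_self, map_smul, Finsupp.smul_apply, smul_eq_mul] at h4
    exact h4
  rw [← hz i, h3]
  have : ((2 : ℤ) : ZMod 2) = 0 := rfl
  push_cast
  rw [show ((2 : ZMod 2)) = 0 from rfl, zero_mul]

/-- A saturated lattice contains `finrank` vectors which are independent modulo 2. -/
theorem exists_red_independent [Finite ι] {S : Submodule ℤ (ι → ℤ)} (hS : Sat2 S) :
    ∃ u : Fin (finrank ℤ S) → ι → ℤ, (∀ i, u i ∈ S) ∧
      LinearIndependent (ZMod 2) fun i => red (u i) := by
  exact ⟨fun i => ((finBasis ℤ S i : S) : ι → ℤ), fun i => (finBasis ℤ S i).2,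
    red_linearIndependent hS (finBasis ℤ S)⟩

/-- The same with any number of vectors up to the rank. -/
theorem exists_red_independent_le [Finite ι] {S : Submodule ℤ (ι → ℤ)} (hS : Sat2 S) {k : ℕ}
    (hk : k ≤ finrank ℤ S) :
    ∃ u : Fin k → ι → ℤ, (∀ i, u i ∈ S) ∧ LinearIndependent (ZMod 2) fun i => red (u i) := by
  obtain ⟨u, hu, hli⟩ := exists_red_independent hS
  exact ⟨fun i => u (Fin.castLE hk i), fun i => hu _,
    hli.comp _ (Fin.castLE_injective hk)⟩

/-- The span over `ZMod 2` of the reduction of a saturated lattice has dimension at least the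
rank. -/
theorem finrank_span_red [Finite ι] {S : Submodule ℤ (ι → ℤ)} (hS : Sat2 S) :
    finrank ℤ S ≤ finrank (ZMod 2) (Submodule.span (ZMod 2) (red '' (S : Set (ι → ℤ)))) := by
  obtain ⟨u, hu, hli⟩ := exists_red_independent hS
  have h1 : finrank (ZMod 2) (Submodule.span (ZMod 2) (Set.range fun i => red (u i))) =
      finrank ℤ S := by
    rw [finrank_span_eq_card hli, Fintype.card_fin]
  rw [← h1]
  apply Submodule.finrank_mono
  apply Submodule.span_mono
  rintro _ ⟨i, rfl⟩
  exact ⟨u i, hu i, rfl⟩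

/-- Summands are saturated. -/
theorem sat2_of_isCompl {A B : Submodule ℤ (ι → ℤ)} (h : IsCompl A B) : Sat2 A := by
  intro x hx
  have hx' : x ∈ A ⊔ B := by rw [h.sup_eq_top]; trivial
  obtain ⟨a, ha, b, hb, rfl⟩ := Submodule.mem_sup.1 hx'
  have h1 : (2 : ℤ) • b ∈ A := by
    have : (2 : ℤ) • b = (2 : ℤ) • (a + b) - (2 : ℤ) • a := by
      rw [smul_add]; abel
    rw [this]
    exact A.sub_mem hx (A.smul_mem _ ha)
  have h2 : (2 : ℤ) • b ∈ A ⊓ B := ⟨h1, B.smul_mem _ hb⟩
  rw [h.inf_eq_bot, Submodule.mem_bot] at h2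
  have hb0 : b = 0 := by
    rcases smul_eq_zero.1 h2 with h | h
    · norm_num at h
    · exact h
  rw [hb0, add_zero]
  exact ha

theorem sat2_inf {S T : Submodule ℤ (ι → ℤ)} (hS : Sat2 S) (hT : Sat2 T) : Sat2 (S ⊓ T) :=
  fun x hx => ⟨hS x hx.1, hT x hx.2⟩

/-- Ranks of complements add up. -/
theorem finrank_add_of_isCompl {R V : Type*} [CommRing R] [IsDomain R] [IsPrincipalIdealRing R]
    [AddCommGroup V] [Module R V] [Module.Free R V] [Module.Finite R V] {A B : Submodule R V}
    (h : IsCompl A B) :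
    finrank R A + finrank R B = finrank R V := by
  rw [← (Submodule.prodEquivOfIsCompl A B h).finrank_eq, finrank_prod]

/-- Rank and nullity of a linear map restricted to a submodule. -/
theorem finrank_map_add_inf_ker {R V W : Type*} [CommRing R] [IsDomain R]
    [IsPrincipalIdealRing R] [AddCommGroup V] [Module R V] [Module.Free R V]
    [Module.Finite R V] [AddCommGroup W] [Module R W] (A : Submodule R V) (f : V →ₗ[R] W) :
    finrank R (A.map f) + finrank R (A ⊓ LinearMap.ker f : Submodule R V) = finrank R A := by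
  have h0 := Submodule.finrank_quotient_add_finrank (LinearMap.ker (f.domRestrict A))
  rw [(f.domRestrict A).quotKerEquivRange.finrank_eq, LinearMap.range_domRestrict] at h0
  have h2 : finrank R (LinearMap.ker (f.domRestrict A)) =
      finrank R (A ⊓ LinearMap.ker f : Submodule R V) := by
    have e : (LinearMap.ker (f.domRestrict A)).map A.subtype = A ⊓ LinearMap.ker f := by
      ext x
      simp only [Submodule.mem_map, LinearMap.mem_ker, Submodule.mem_inf]
      constructor
      · rintro ⟨y, hy, rfl⟩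
        exact ⟨y.2, hy⟩
      · rintro ⟨h1, h2⟩
        exact ⟨⟨x, h1⟩, h2, rfl⟩
    rw [← e]
    exact (Submodule.equivMapOfInjective _ A.injective_subtype _).finrank_eq
  rw [← h2]
  exact h0

end Helper14.H10
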